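import Pool.Agent.W872.SP.Final

/-!
# Cardinal arithmetic from local hypotheses
-/

set_option linter.unusedSectionVars false
set_option linter.unusedVariables false

namespace Pool.Agent.Y243.SPL

open Cardinal Ordinal Pool.Agent.W872.SP

variable {κ : Cardinal.{0}}

theorem mk_small_of {T : Type} [LinearOrder T] [WellFoundedLT T]
    (h2 : ∀ ν : Cardinal.{0}, ν < #T → 2 ^ ν ≤ #T)
    (hT : ord #T = typeLT T) (hcof : κ ≤ Order.cof T) (hinf : ℵ₀ ≤ #T) :
    #{x : Set T // #x < κ} ≤ #T := by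
  have h1 : ∀ x : {x : Set T // #x < κ}, ∃ a, ∀ b ∈ x.1, b < a :=
    fun x => bounded_of_lt_cof (lt_of_lt_of_le x.2 hcof)
  choose a ha using h1
  have h3 : Function.Injective fun x : {x : Set T // #x < κ} =>
      (⟨a x, {b | b.1 ∈ x.1}⟩ : Σ a : T, Set (Set.Iio a)) := by
    intro x y h
    simp only [Sigma.mk.injEq] at h
    obtain ⟨h3, h4⟩ := h
    apply Subtype.ext
    have key : ∀ (a b : T) (s t : Set T), a = b →
        HEq ({z : Set.Iio a | z.1 ∈ s}) ({z : Set.Iio b | z.1 ∈ t}) →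
        (∀ z ∈ s, z < a) → (∀ z ∈ t, z < b) → s = t := by
      rintro a b s t rfl h hs ht
      have h' := eq_of_heq h
      ext z
      constructor
      · intro hz
        have : (⟨z, hs z hz⟩ : Set.Iio a) ∈ {z : Set.Iio a | z.1 ∈ s} := hz
        rw [h'] at this
        exact this
      · intro hz
        have : (⟨z, ht z hz⟩ : Set.Iio a) ∈ {z : Set.Iio a | z.1 ∈ t} := hz
        rw [← h'] at this
        exact this
    exact key _ _ _ _ h3 h4 (ha x) (ha y)
  refine (mk_le_of_injective h3).trans ?_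
  rw [mk_sigma]
  refine (sum_le_sum _ (fun _ => #T) fun a => ?_).trans ?_
  · rw [mk_set]
    exact h2 _ (Cardinal.mk_Iio_lt a hT)
  · rw [sum_const, Cardinal.lift_id, mul_eq_self hinf]

variable {μ : Cardinal.{0}}

/-- The number of the subsets of size less than `κ` of a set of size `μ`, from `μ ^< κ ≤ μ`. -/
theorem mk_small_of_powerlt {T : Type} (hT : #T = μ) (hsub : μ ^< κ ≤ μ) (hκμ : κ ≤ μ)
    (hκ : ℵ₀ ≤ κ) : #{x : Set T // #x < κ} ≤ μ := by
  have h1 : ∀ x : {x : Set T // #x < κ}, ∃ (i : κ.ord.ToType) (f : Set.Iio i → T),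
      Set.range f = x.1 := by
    intro x
    have hlt : (#x.1).ord < typeLT κ.ord.ToType := by
      rw [type_toType]
      exact ord_lt_ord.2 x.2
    have hi := typein_enum (α := κ.ord.ToType) (· < ·) hlt
    set i : κ.ord.ToType := enum (α := κ.ord.ToType) (· < ·) ⟨(#x.1).ord, hlt⟩ with hidef
    have hc : #(Set.Iio i) = #x.1 := by
      have h : card (typein (α := κ.ord.ToType) (· < ·) i) = #(Set.Iio i) := card_typein _
      rw [← h, hi, card_ord]
    obtain ⟨e⟩ := Cardinal.eq.1 hc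
    refine ⟨i, fun a => (e a : T), ?_⟩
    ext z
    constructor
    · rintro ⟨a, rfl⟩
      exact (e a).2
    · intro hz
      exact ⟨e.symm ⟨z, hz⟩, by simp⟩
  choose i f hf using h1
  have h3 : Function.Injective fun x : {x : Set T // #x < κ} =>
      (⟨i x, f x⟩ : Σ i : κ.ord.ToType, (Set.Iio i → T)) := by
    intro x y h
    simp only [Sigma.mk.injEq] at h
    obtain ⟨h4, h5⟩ := h
    apply Subtype.ext
    rw [← hf x, ← hf y]
    have key : ∀ (a b : κ.ord.ToType) (g : Set.Iio a → T) (g' : Set.Iio b → T), a = b →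
        HEq g g' → Set.range g = Set.range g' := by
      rintro a b g g' rfl h
      rw [eq_of_heq h]
    exact key _ _ _ _ h4 h5
  refine (mk_le_of_injective h3).trans ?_
  have hμ : ℵ₀ ≤ μ := hκ.trans hκμ
  rw [mk_sigma]
  refine (sum_le_sum _ (fun _ => μ) fun i => ?_).trans ?_
  · rw [← power_def, hT]
    have hlt : #(Set.Iio i) < κ := by
      have := Cardinal.mk_Iio_lt i (typeLT_toType κ)
      rwa [Pool.Agent.W872.SP.mk_toType] at this
    exact (le_powerlt μ hlt).trans hsub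
  · rw [sum_const, Cardinal.lift_id, Cardinal.lift_id, Pool.Agent.W872.SP.mk_toType]
    calc κ * μ ≤ μ * μ := by gcongr
      _ = μ := mul_eq_self hμ

section small

variable {L : Type} [LinearOrder L] [WellFoundedLT L]

theorem mk_QQ_local {m : L} (hsub : μ ^< κ ≤ μ) (hκμ : κ ≤ μ) (hκ : ℵ₀ ≤ κ)
    (hm : typein (α := L) (· < ·) m = μ.ord) : #(QQ κ m) ≤ μ :=
  mk_small_of_powerlt (mk_Iio_m hm) hsub hκμ hκ

theorem mk_codes_local {m : L} (h2μ : 2 ^ μ = Order.succ μ) (h : #(QQ κ m) ≤ μ)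
    (hμ : ℵ₀ ≤ μ) : #(QQ κ m → Set (QQ κ m × QQ κ m)) ≤ Order.succ μ := by
  rw [← power_def, mk_set, mk_prod, Cardinal.lift_id, ← h2μ, ← power_mul]
  refine power_le_power_left two_ne_zero ?_
  calc #(QQ κ m) * #(QQ κ m) * #(QQ κ m) ≤ μ * μ * μ := by gcongr
    _ = μ := by rw [mul_eq_self hμ, mul_eq_self hμ]

end small

end Pool.Agent.Y243.SPL
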